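import Mathlib

set_option autoImplicit false

/-!
# Project ESB (helper161), job FAM: the combinatorial part
-/

namespace Pool.Agent.Q210.ESB

open Finset

open scoped Classical

section
variable {V : Type} (N : V → ℝ) (hN : ∀ v, 1 ≤ N v)

include hN in
theorem one_le_prodR (s : Finset V) : 1 ≤ ∏ v ∈ s, N v := by
  induction s using Finset.induction_on with
  | empty => simp
  | insert a s ha ih =>
    rw [Finset.prod_insert ha]
    exact one_le_mul_of_one_le_of_one_le (hN a) ih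

include hN in
theorem prod_le_of_subset {s t : Finset V} (h : s ⊆ t) : ∏ v ∈ s, N v ≤ ∏ v ∈ t, N v := by
  rw [← Finset.prod_sdiff h]
  have h1 := one_le_prodR N hN (t \ s)
  have h2 : 0 ≤ ∏ v ∈ s, N v := zero_le_one.trans (one_le_prodR N hN s)
  exact le_mul_of_one_le_left h2 h1

end

/-- The number of indices with given data. -/
theorem count {ι V Δ : Type} {m : ℕ} (I : Finset ι) (t : ι → V → Finset (Fin m))
    (o : Finset (Fin m) → Prop) (D : ι → Δ) (sp : Δ → Finset V)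
    (hsp : ∀ i v, v ∈ sp (D i) ↔ o (t i v)) (K : ℕ)
    (hK : ∀ i0 ∈ I, (I.filter fun i => t i = t i0).card ≤ K) (d : Δ) (J : Finset ι) (hJ : J ⊆ I)
    (hd : ∀ i ∈ J, D i = d)
    (hE : ∀ i ∈ J, ∀ i' ∈ J, ∀ v, ¬ o (t i v) → t i v ≠ ∅ → t i' v = t i v) :
    J.card ≤ K * ((univ.filter o).card) ^ (sp d).card := by
  have h1 : J.card ≤ K * (J.image t).card := by
    refine Finset.card_le_mul_card_image J K ?_
    intro a ha
    obtain ⟨i0, hi0, rfl⟩ := Finset.mem_image.1 ha
    exact (Finset.card_le_card (Finset.filter_subset_filter _ hJ)).trans (hK i0 (hJ hi0))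
  refine h1.trans (Nat.mul_le_mul_left _ ?_)
  have h2 : (J.image t).card ≤
      (Fintype.piFinset fun _ : {v // v ∈ sp d} => (univ.filter o : Finset (Finset (Fin m)))).card := by
    refine Finset.card_le_card_of_injOn (fun g v => g v.1) ?_ ?_
    · intro g hg
      obtain ⟨i, hi, rfl⟩ := Finset.mem_image.1 hg
      simp only [Finset.mem_coe, Fintype.mem_piFinset, Finset.mem_filter, Finset.mem_univ, true_and]
      intro v
      exact (hsp i v.1).1 (by rw [hd i hi]; exact v.2)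
    · intro g hg g' hg' h
      obtain ⟨i, hi, rfl⟩ := Finset.mem_image.1 hg
      obtain ⟨i', hi', rfl⟩ := Finset.mem_image.1 hg'
      funext v
      by_cases hv : v ∈ sp d
      · exact congrFun h ⟨v, hv⟩
      · have ho : ¬ o (t i v) := fun h => hv (by rw [← hd i hi]; exact (hsp i v).2 h)
        have ho' : ¬ o (t i' v) := fun h => hv (by rw [← hd i' hi']; exact (hsp i' v).2 h)
        by_cases h3 : t i v = ∅
        · by_cases h4 : t i' v = ∅
          · rw [h3, h4]
          · exact hE i' hi' i hi v ho' h4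
        · exact (hE i hi i' hi' v ho h3).symm
  rw [Fintype.card_piFinset, Finset.prod_const, Finset.card_univ, Fintype.card_coe] at h2
  exact h2

/-- **The combinatorial estimate.** -/
theorem core {ι V Δ : Type} (N : V → ℝ) (hN : ∀ v, 1 ≤ N v) {m : ℕ} (I : Finset ι)
    (t : ι → V → Finset (Fin m)) (sup : ι → Finset V) (hsup : ∀ i v, v ∈ sup i ↔ t i v ≠ ∅)
    (o : Finset (Fin m) → Prop) (ho : ¬ o ∅)
    (D : ι → Δ) (sp : Δ → Finset V) (hsp : ∀ i v, v ∈ sp (D i) ↔ o (t i v))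
    (K : ℕ) (hK : ∀ i0 ∈ I, (I.filter fun i => t i = t i0).card ≤ K)
    (X : ℝ) (hX : 1 ≤ X) (hnorm : ∀ i ∈ I, ∏ v ∈ sup i, N v ≤ X)
    (f : Δ → ℝ) (hf : ∀ i ∈ I, 0 ≤ f (D i)) (C1 : ℝ) (hC1 : 0 < C1)
    (hW : ∀ Y : ℝ, 1 ≤ Y → ∀ 𝒟 : Finset Δ, (∀ d ∈ 𝒟, ∃ i ∈ I, D i = d) →
      (∀ d ∈ 𝒟, ∏ v ∈ sp d, N v ≤ Y) →
      ∑ d ∈ 𝒟, ((univ.filter o).card : ℝ) ^ (sp d).card * f d ≤
        C1 * Y * (1 + Real.log Y) ^ ((univ.filter o).card - 1))
    (C2 : ℝ)
    (hI : ∀ 𝒜 : Finset (Finset V), (∀ A ∈ 𝒜, ∏ v ∈ A, N v ≤ X) →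
      ∑ A ∈ 𝒜, 1 / ∏ v ∈ A, N v ≤ C2 * (1 + Real.log X)) :
    ∑ i ∈ I, f (D i) ≤ K * C1 * X * (1 + Real.log X) ^ ((univ.filter o).card - 1) *
      (C2 * (1 + Real.log X)) ^ (univ.filter fun T : Finset (Fin m) => ¬ o T ∧ T ≠ ∅).card := by
  set M : ℕ := (univ.filter o).card with hM
  set ℰ : Finset (Finset (Fin m)) := univ.filter fun T : Finset (Fin m) => ¬ o T ∧ T ≠ ∅ with hℰ
  have hlog : 0 ≤ Real.log X := Real.log_nonneg hX
  have hX0 : 0 < X := by linarith
  let E : ι → ({T // T ∈ ℰ} → Finset V) := fun i T => (sup i).filter fun v => t i v = T.1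
  let NE : ({T // T ∈ ℰ} → Finset V) → ℝ := fun e => ∏ T, ∏ v ∈ e T, N v
  have hNE1 : ∀ e, 1 ≤ NE e := by
    intro e
    show 1 ≤ ∏ T, ∏ v ∈ e T, N v
    exact one_le_prodR (fun T : {T // T ∈ ℰ} => ∏ v ∈ e T, N v) (fun T => one_le_prodR N hN _) _
  -- the product over the support
  have hprod : ∀ i, (∏ v ∈ sp (D i), N v) * NE (E i) = ∏ v ∈ sup i, N v := by
    intro i
    rw [← Finset.prod_filter_mul_prod_filter_not (sup i) (fun v => o (t i v))]
    congr 1
    · refine Finset.prod_congr ?_ fun _ _ => rfl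
      ext v
      rw [Finset.mem_filter, hsp, hsup]
      refine ⟨fun h => ⟨fun h0 => ho (by rw [← h0]; exact h), h⟩, fun h => h.2⟩
    · show ∏ T : {T // T ∈ ℰ}, ∏ v ∈ (sup i).filter (fun v => t i v = T.1), N v = _
      rw [Finset.prod_coe_sort ℰ (fun T => ∏ v ∈ (sup i).filter (fun v => t i v = T), N v)]
      have hmaps : ∀ v ∈ (sup i).filter (fun v => ¬ o (t i v)), t i v ∈ ℰ := by
        intro v hv
        rw [Finset.mem_filter, hsup] at hv
        rw [hℰ, Finset.mem_filter]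
        exact ⟨Finset.mem_univ _, hv.2, hv.1⟩
      rw [← Finset.prod_fiberwise_of_maps_to hmaps]
      refine Finset.prod_congr rfl fun T hT => ?_
      refine Finset.prod_congr ?_ fun _ _ => rfl
      ext v
      rw [hℰ, Finset.mem_filter] at hT
      simp only [Finset.mem_filter]
      constructor
      · rintro ⟨h1, h2⟩
        exact ⟨⟨h1, by rw [h2]; exact hT.2.1⟩, h2⟩
      · rintro ⟨⟨h1, -⟩, h2⟩
        exact ⟨h1, h2⟩
  -- one family
  have hone : ∀ e ∈ I.image E, ∑ i ∈ I.filter (fun i => E i = e), f (D i) ≤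
      K * C1 * X * (1 + Real.log X) ^ (M - 1) * (1 / NE e) := by
    intro e he
    set J := I.filter (fun i => E i = e) with hJ
    have hY : 1 ≤ X / NE e := by
      obtain ⟨i, hi, rfl⟩ := Finset.mem_image.1 he
      rw [le_div_iff₀ (zero_lt_one.trans_le (hNE1 _)), one_mul]
      have h1 := hprod i
      have h2 := hnorm i hi
      have h3 := one_le_prodR N hN (sp (D i))
      have h4 := hNE1 (E i)
      nlinarith
    rw [Finset.sum_comp f D]
    have hstep : ∀ d ∈ J.image D, (J.filter fun i => D i = d).card • f d ≤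
        (K : ℝ) * ((M : ℝ) ^ (sp d).card * f d) := by
      intro d hd
      obtain ⟨i, hi, rfl⟩ := Finset.mem_image.1 hd
      have hf0 := hf i (Finset.mem_filter.1 hi).1
      have hc : (J.filter fun i' => D i' = D i).card ≤ K * M ^ (sp (D i)).card := by
        refine count I t o D sp hsp K hK (D i) _
          ((Finset.filter_subset _ _).trans (Finset.filter_subset _ _))
          (fun i' hi' => (Finset.mem_filter.1 hi').2) ?_
        intro i1 h1 i2 h2 v hv1 hv2
        have e1 : E i1 = e := (Finset.mem_filter.1 (Finset.mem_filter.1 h1).1).2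
        have e2 : E i2 = e := (Finset.mem_filter.1 (Finset.mem_filter.1 h2).1).2
        have hT : t i1 v ∈ ℰ := by
          rw [hℰ, Finset.mem_filter]
          exact ⟨Finset.mem_univ _, hv1, hv2⟩
        have hv : v ∈ E i1 ⟨t i1 v, hT⟩ :=
          Finset.mem_filter.2 ⟨(hsup i1 v).2 hv2, rfl⟩
        rw [e1, ← e2] at hv
        exact (Finset.mem_filter.1 hv).2
      rw [nsmul_eq_mul, ← mul_assoc]
      refine mul_le_mul_of_nonneg_right ?_ hf0
      exact_mod_cast hc
    refine (Finset.sum_le_sum hstep).trans ?_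
    rw [← Finset.mul_sum]
    have h5 := hW (X / NE e) hY (J.image D) (by
      intro d hd
      obtain ⟨i, hi, rfl⟩ := Finset.mem_image.1 hd
      exact ⟨i, (Finset.mem_filter.1 hi).1, rfl⟩) (by
      intro d hd
      obtain ⟨i, hi, rfl⟩ := Finset.mem_image.1 hd
      rw [hJ, Finset.mem_filter] at hi
      rw [le_div_iff₀ (zero_lt_one.trans_le (hNE1 _))]
      have h1 := hprod i
      rw [hi.2] at h1
      rw [h1]
      exact hnorm i hi.1)
    have hlogY : Real.log (X / NE e) ≤ Real.log X :=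
      Real.log_le_log (by linarith) (div_le_self hX0.le (hNE1 e))
    have hlogY0 : 0 ≤ Real.log (X / NE e) := Real.log_nonneg hY
    have h6 : (1 + Real.log (X / NE e)) ^ (M - 1) ≤ (1 + Real.log X) ^ (M - 1) :=
      pow_le_pow_left₀ (by linarith) (by linarith) _
    have h7 : C1 * (X / NE e) * (1 + Real.log (X / NE e)) ^ (M - 1) ≤
        C1 * (X / NE e) * (1 + Real.log X) ^ (M - 1) :=
      mul_le_mul_of_nonneg_left h6 (by positivity)
    calc (K : ℝ) * ∑ d ∈ J.image D, (M : ℝ) ^ (sp d).card * f d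
        ≤ (K : ℝ) * (C1 * (X / NE e) * (1 + Real.log X) ^ (M - 1)) :=
          mul_le_mul_of_nonneg_left (h5.trans h7) (Nat.cast_nonneg _)
      _ = _ := by ring
  -- all families
  have htot : ∑ i ∈ I, f (D i) = ∑ e ∈ I.image E, ∑ i ∈ I.filter (fun i => E i = e), f (D i) :=
    (Finset.sum_fiberwise_of_maps_to (fun i hi => Finset.mem_image_of_mem _ hi) _).symm
  have hsumE : ∑ e ∈ I.image E, 1 / NE e ≤ (C2 * (1 + Real.log X)) ^ ℰ.card := by
    set 𝒜 : Finset (Finset V) := I.biUnion fun i => (univ : Finset {T // T ∈ ℰ}).image fun T => E i T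
      with h𝒜
    have hA : ∀ A ∈ 𝒜, ∏ v ∈ A, N v ≤ X := by
      intro A hA
      rw [h𝒜, Finset.mem_biUnion] at hA
      obtain ⟨i, hi, hA⟩ := hA
      obtain ⟨T, -, rfl⟩ := Finset.mem_image.1 hA
      exact (prod_le_of_subset N hN (Finset.filter_subset _ _)).trans (hnorm i hi)
    have h1 := hI 𝒜 hA
    have hsub : I.image E ⊆ Fintype.piFinset fun _ : {T // T ∈ ℰ} => 𝒜 := by
      intro e he
      obtain ⟨i, hi, rfl⟩ := Finset.mem_image.1 he
      rw [Fintype.mem_piFinset]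
      intro T
      rw [h𝒜, Finset.mem_biUnion]
      exact ⟨i, hi, Finset.mem_image_of_mem _ (Finset.mem_univ _)⟩
    have hpos : ∀ A : Finset V, 0 ≤ 1 / ∏ v ∈ A, N v := by
      intro A
      have := one_le_prodR N hN A
      positivity
    calc ∑ e ∈ I.image E, 1 / NE e
        = ∑ e ∈ I.image E, ∏ T, (1 / ∏ v ∈ e T, N v) := by
          refine Finset.sum_congr rfl fun e _ => ?_
          show 1 / ∏ T, ∏ v ∈ e T, N v = _
          rw [Finset.prod_div_distrib, Finset.prod_const_one]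
      _ ≤ ∑ e ∈ Fintype.piFinset fun _ : {T // T ∈ ℰ} => 𝒜, ∏ T, (1 / ∏ v ∈ e T, N v) :=
          Finset.sum_le_sum_of_subset_of_nonneg hsub fun e _ _ =>
            Finset.prod_nonneg fun T _ => hpos _
      _ = ∏ _T : {T // T ∈ ℰ}, ∑ A ∈ 𝒜, 1 / ∏ v ∈ A, N v := by
          rw [Finset.prod_univ_sum]
      _ = (∑ A ∈ 𝒜, 1 / ∏ v ∈ A, N v) ^ ℰ.card := by
          rw [Finset.prod_const, Finset.card_univ, Fintype.card_coe]
      _ ≤ (C2 * (1 + Real.log X)) ^ ℰ.card :=
          pow_le_pow_left₀ (Finset.sum_nonneg fun A _ => hpos A) h1 _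
  rw [htot]
  refine (Finset.sum_le_sum hone).trans ?_
  rw [← Finset.mul_sum]
  refine mul_le_mul_of_nonneg_left hsumE ?_
  have : 0 ≤ (1 + Real.log X) ^ (M - 1) := pow_nonneg (by linarith) _
  positivity

/-- The combinatorial estimate, with the numbers of the types as parameters. -/
theorem core' {ι V Δ : Type} (N : V → ℝ) (hN : ∀ v, 1 ≤ N v) {m : ℕ} (I : Finset ι)
    (t : ι → V → Finset (Fin m)) (sup : ι → Finset V) (hsup : ∀ i v, v ∈ sup i ↔ t i v ≠ ∅)
    (o : Finset (Fin m) → Prop) (ho : ¬ o ∅) (M e : ℕ) (hM : (univ.filter o).card = M)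
    (he : (univ.filter fun T : Finset (Fin m) => ¬ o T ∧ T ≠ ∅).card = e)
    (D : ι → Δ) (sp : Δ → Finset V) (hsp : ∀ i v, v ∈ sp (D i) ↔ o (t i v))
    (K : ℕ) (hK : ∀ i0 ∈ I, (I.filter fun i => t i = t i0).card ≤ K)
    (X : ℝ) (hX : 1 ≤ X) (hnorm : ∀ i ∈ I, ∏ v ∈ sup i, N v ≤ X)
    (f : Δ → ℝ) (hf : ∀ i ∈ I, 0 ≤ f (D i)) (C1 : ℝ) (hC1 : 0 < C1)
    (hW : ∀ Y : ℝ, 1 ≤ Y → ∀ 𝒟 : Finset Δ, (∀ d ∈ 𝒟, ∃ i ∈ I, D i = d) →
      (∀ d ∈ 𝒟, ∏ v ∈ sp d, N v ≤ Y) →
      ∑ d ∈ 𝒟, (M : ℝ) ^ (sp d).card * f d ≤ C1 * Y * (1 + Real.log Y) ^ (M - 1))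
    (C2 : ℝ)
    (hI : ∀ 𝒜 : Finset (Finset V), (∀ A ∈ 𝒜, ∏ v ∈ A, N v ≤ X) →
      ∑ A ∈ 𝒜, 1 / ∏ v ∈ A, N v ≤ C2 * (1 + Real.log X)) :
    ∑ i ∈ I, f (D i) ≤ K * C1 * X * (1 + Real.log X) ^ (M - 1) *
      (C2 * (1 + Real.log X)) ^ e := by
  subst hM
  subst he
  exact core N hN I t sup hsup o ho D sp hsp K hK X hX hnorm f hf C1 hC1 hW C2 hI

/-- Half of the subsets meet `S` in an odd number of elements. -/
theorem card_odd {m : ℕ} (S : Finset (Fin m)) (hS : S.Nonempty) :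
    (univ.filter fun T : Finset (Fin m) => Odd (T ∩ S).card).card = 2 ^ (m - 1) ∧
    (univ.filter fun T : Finset (Fin m) => ¬ Odd (T ∩ S).card ∧ T ≠ ∅).card = 2 ^ (m - 1) - 1 := by
  obtain ⟨a, ha⟩ := hS
  have hm : 1 ≤ m := by
    have := a.2; omega
  have hpar : ∀ T : Finset (Fin m), Odd ((symmDiff T {a}) ∩ S).card ↔ ¬ Odd (T ∩ S).card := by
    intro T
    by_cases h : a ∈ T
    · have e1 : T ∩ S = insert a ((symmDiff T {a}) ∩ S) := by
        ext x
        simp only [Finset.mem_inter, Finset.mem_insert, Finset.mem_symmDiff, Finset.mem_singleton]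
        by_cases hx : x = a
        · subst hx; simp [h, ha]
        · simp [hx]
      have e2 : a ∉ (symmDiff T {a}) ∩ S := by
        simp [Finset.mem_symmDiff, h]
      rw [e1, Finset.card_insert_of_notMem e2, Nat.odd_add_one, not_not]
    · have e1 : (symmDiff T {a}) ∩ S = insert a (T ∩ S) := by
        ext x
        simp only [Finset.mem_inter, Finset.mem_insert, Finset.mem_symmDiff, Finset.mem_singleton]
        by_cases hx : x = a
        · subst hx; simp [h, ha]
        · simp [hx]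
      have e2 : a ∉ T ∩ S := by simp [h]
      rw [e1, Finset.card_insert_of_notMem e2, Nat.odd_add_one]
  have hcard : (univ.filter fun T : Finset (Fin m) => Odd (T ∩ S).card).card =
      (univ.filter fun T : Finset (Fin m) => ¬ Odd (T ∩ S).card).card := by
    refine Finset.card_bij' (fun T _ => symmDiff T {a}) (fun T _ => symmDiff T {a}) ?_ ?_ ?_ ?_
    · intro T hT
      rw [Finset.mem_filter] at hT ⊢
      refine ⟨Finset.mem_univ _, ?_⟩
      rw [hpar, not_not]
      exact hT.2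
    · intro T hT
      rw [Finset.mem_filter] at hT ⊢
      exact ⟨Finset.mem_univ _, (hpar T).2 hT.2⟩
    · intro T _
      rw [symmDiff_assoc, symmDiff_self]
      exact symmDiff_bot T
    · intro T _
      rw [symmDiff_assoc, symmDiff_self]
      exact symmDiff_bot T
  have htot := Finset.card_filter_add_card_filter_not (s := (univ : Finset (Finset (Fin m))))
    (fun T : Finset (Fin m) => Odd (T ∩ S).card)
  rw [Finset.card_univ, Fintype.card_finset, Fintype.card_fin] at htot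
  obtain ⟨k, rfl⟩ : ∃ k, m = k + 1 := ⟨m - 1, by omega⟩
  have hpow : 2 ^ (k + 1) = 2 * 2 ^ k := by ring
  have h1 : (univ.filter fun T : Finset (Fin (k + 1)) => Odd (T ∩ S).card).card = 2 ^ (k + 1 - 1) := by
    rw [Nat.add_sub_cancel]
    omega
  refine ⟨h1, ?_⟩
  have h2 : (univ.filter fun T : Finset (Fin (k + 1)) => ¬ Odd (T ∩ S).card ∧ T ≠ ∅) =
      (univ.filter fun T : Finset (Fin (k + 1)) => ¬ Odd (T ∩ S).card).erase ∅ := by
    ext T
    simp only [Finset.mem_filter, Finset.mem_univ, true_and, Finset.mem_erase]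
    tauto
  rw [h2, Finset.card_erase_of_mem, ← hcard, h1]
  simp

end Pool.Agent.Q210.ESB
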