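import Pool.Agent.Q161.ESB.Stm4
import Pool.Agent.Q237.ESN.REP
import Pool.Agent.Q210.ESB.FamA

set_option autoImplicit false

/-!
# Project ESB (helper161), job FAM
-/

namespace Pool.Agent.Q210.ESB

open Finset NumberField IsDedekindDomain Pool.Agent.Q161.ESB
open Pool.Agent.Q237.ESN (oddAt_finite)
open Pool.Agent.Q161.ESN (oddAt_mul_sq)

open scoped Classical

section odd
variable {F : Type} [Field F] [NumberField F]

theorem oddAt_iff {v : HeightOneSpectrum (𝓞 F)} {x : F} (hx : x ≠ 0) :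
    OddAt v x ↔ Odd (WithZero.log (v.valuation F x)) := by
  have h0 : v.valuation F x ≠ 0 := (Valuation.ne_zero_iff _).2 hx
  constructor
  · rintro ⟨k, hk⟩
    rw [hk, WithZero.log_exp]
    exact ⟨k, by ring⟩
  · rintro ⟨k, hk⟩
    refine ⟨k, ?_⟩
    rw [← WithZero.exp_log h0, hk]
    congr 1
    ring

theorem oddAt_mul {v : HeightOneSpectrum (𝓞 F)} {x y : F} (hx : x ≠ 0) (hy : y ≠ 0) :
    OddAt v (x * y) ↔ (OddAt v x ↔ ¬ OddAt v y) := by
  have h0 : v.valuation F x ≠ 0 := (Valuation.ne_zero_iff _).2 hx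
  have h1 : v.valuation F y ≠ 0 := (Valuation.ne_zero_iff _).2 hy
  rw [oddAt_iff (mul_ne_zero hx hy), oddAt_iff hx, oddAt_iff hy, map_mul,
    WithZero.log_mul h0 h1, Int.odd_add, Int.not_odd_iff_even]

theorem oddAt_prod {v : HeightOneSpectrum (𝓞 F)} {m : ℕ} (b : Fin m → F) (hb : ∀ j, b j ≠ 0)
    (S : Finset (Fin m)) :
    OddAt v (∏ j ∈ S, b j) ↔ Odd ((univ.filter fun j => OddAt v (b j)) ∩ S).card := by
  induction S using Finset.induction_on with
  | empty =>
    rw [Finset.prod_empty, Finset.inter_empty, Finset.card_empty]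
    have h : ¬ OddAt v (1 : F) := by
      rw [oddAt_iff one_ne_zero, map_one, WithZero.log_one]
      decide
    simp [h]
  | insert a S ha ih =>
    rw [Finset.prod_insert ha, oddAt_mul (hb a) (Finset.prod_ne_zero_iff.2 fun j _ => hb j), ih]
    by_cases h : OddAt v (b a)
    · have e : (univ.filter fun j => OddAt v (b j)) ∩ insert a S =
          insert a ((univ.filter fun j => OddAt v (b j)) ∩ S) := by
        ext x
        simp only [Finset.mem_inter, Finset.mem_insert, Finset.mem_filter, Finset.mem_univ, true_and]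
        by_cases hx : x = a
        · subst hx; simp [h]
        · simp [hx]
      have e2 : a ∉ (univ.filter fun j => OddAt v (b j)) ∩ S := by simp [ha]
      rw [e, Finset.card_insert_of_notMem e2, Nat.odd_add_one]
      simp [h]
    · have e : (univ.filter fun j => OddAt v (b j)) ∩ insert a S =
          ((univ.filter fun j => OddAt v (b j)) ∩ S) := by
        ext x
        simp only [Finset.mem_inter, Finset.mem_insert, Finset.mem_filter, Finset.mem_univ, true_and]
        by_cases hx : x = a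
        · subst hx; simp [h]
        · simp [hx]
      rw [e]
      simp [h]

/-- the odd support -/
noncomputable def supp (D : F) : Finset (HeightOneSpectrum (𝓞 F)) :=
  if h : D ≠ 0 then (oddAt_finite D h).toFinset else ∅

theorem mem_supp {D : F} (hD : D ≠ 0) (v : HeightOneSpectrum (𝓞 F)) :
    v ∈ supp D ↔ OddAt v D := by
  unfold supp
  rw [dif_pos hD, Set.Finite.mem_toFinset]
  rfl

theorem wt_eq {D : F} (hD : D ≠ 0) : wt D = (supp D).card := by
  unfold wt
  rw [← Set.ncard_coe_finset]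
  congr 1
  ext v
  exact (mem_supp hD v).symm

theorem oddNorm_eq {D : F} (hD : D ≠ 0) :
    ((oddNorm D : ℕ) : ℝ) = ∏ v ∈ supp D, ((Ideal.absNorm v.asIdeal : ℕ) : ℝ) := by
  have h : oddNorm D = ∏ v ∈ supp D, Ideal.absNorm v.asIdeal := by
    unfold oddNorm
    rw [← finprod_mem_coe_finset]
    refine finprod_congr fun v => ?_
    refine finprod_congr_Prop ?_ fun _ => rfl
    exact propext (mem_supp hD v).symm
  rw [h, Nat.cast_prod]

theorem one_le_N (v : HeightOneSpectrum (𝓞 F)) : (1 : ℝ) ≤ ((Ideal.absNorm v.asIdeal : ℕ) : ℝ) := by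
  have : Ideal.absNorm v.asIdeal ≠ 0 := by
    rw [Ne, Ideal.absNorm_eq_zero_iff]
    exact v.ne_bot
  exact_mod_cast Nat.one_le_iff_ne_zero.2 this

end odd

section rep
variable (F : Type) [Field F]

/-- equality modulo squares -/
def sqSetoid : Setoid F where
  r D D' := ∃ s : F, s ≠ 0 ∧ D' = D * s ^ 2
  iseqv := by
    refine ⟨fun D => ⟨1, one_ne_zero, by ring⟩, ?_, ?_⟩
    · rintro D D' ⟨s, hs, rfl⟩
      exact ⟨s⁻¹, inv_ne_zero hs, by field_simp⟩
    · rintro D D' D'' ⟨s, hs, rfl⟩ ⟨r, hr, rfl⟩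
      exact ⟨s * r, mul_ne_zero hs hr, by ring⟩

variable {F}

/-- a representative of the class modulo squares -/
noncomputable def rep (D : F) : F := (Quotient.mk (sqSetoid F) D).out

theorem rep_spec (D : F) : ∃ s : F, s ≠ 0 ∧ rep D = D * s ^ 2 := by
  have h : (sqSetoid F).r (rep D) D := Quotient.mk_out (s := sqSetoid F) D
  exact (sqSetoid F).symm h

theorem rep_eq {D D' : F} (h : ∃ s : F, s ≠ 0 ∧ D' = D * s ^ 2) : rep D = rep D' := by
  unfold rep
  congr 1
  exact Quotient.sound (s := sqSetoid F) h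

theorem rep_ne {D : F} (hD : D ≠ 0) : rep D ≠ 0 := by
  obtain ⟨s, hs, h⟩ := rep_spec D
  rw [h]
  exact mul_ne_zero hD (pow_ne_zero _ hs)

theorem rep_rep (D : F) : rep (rep D) = rep D := (rep_eq (rep_spec D)).symm

theorem rep_square {D D' : F} (hD : D ≠ 0) (hD' : D' ≠ 0) (h : IsSquare (D * D')) :
    rep D = rep D' := by
  obtain ⟨r, hr⟩ := h
  have hr0 : r ≠ 0 := by
    rintro rfl
    exact mul_ne_zero hD hD' (by rw [hr, mul_zero])
  refine rep_eq ⟨r / D, div_ne_zero hr0 hD, ?_⟩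
  field_simp
  linear_combination hr

theorem square_of_rep {D D' : F} (h : rep D = rep D') : IsSquare (D * D') := by
  obtain ⟨s, hs, h1⟩ := rep_spec D
  obtain ⟨r, hr, h2⟩ := rep_spec D'
  refine ⟨D * s / r, ?_⟩
  have h3 : D * s ^ 2 = D' * r ^ 2 := by rw [← h1, ← h2, h]
  field_simp
  linear_combination (-1 : F) * D * h3

end rep

section per
variable {F : Type} [Field F] [NumberField F]

/-- at most `C^m` indices have given odd supports -/
theorem fibre {m n : ℕ} {C : ℕ}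
    (hC : ∀ (A : Set (HeightOneSpectrum (𝓞 F))) (𝒟 : Finset F),
      (∀ D ∈ 𝒟, D ≠ 0 ∧ ∀ v, OddAt v D ↔ v ∈ A) →
      (∀ D ∈ 𝒟, ∀ D' ∈ 𝒟, D ≠ D' → ¬ IsSquare (D * D')) → 𝒟.card ≤ C)
    (b : Fin n → Fin m → F) (hb : ∀ i, Indep (b i)) (hs : ∀ i i', i ≠ i' → ¬ SubSp (b i) (b i'))
    (i0 : Fin n) :
    (univ.filter fun i => (fun v => univ.filter fun j => OddAt v (b i j)) =
      (fun v => univ.filter fun j => OddAt v (b i0 j))).card ≤ C ^ m := by
  set J : Finset (Fin n) := univ.filter fun i =>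
    (fun v => univ.filter fun j => OddAt v (b i j)) =
      (fun v => univ.filter fun j => OddAt v (b i0 j)) with hJ
  have hodd : ∀ i ∈ J, ∀ v j, OddAt v (b i j) ↔ OddAt v (b i0 j) := by
    intro i hi v j
    have h1 := congrFun (Finset.mem_filter.1 hi).2 v
    have h2 : j ∈ (univ.filter fun j => OddAt v (b i j)) ↔
      j ∈ (univ.filter fun j => OddAt v (b i0 j)) := by rw [h1]
    simpa using h2
  have h1 : J.card ≤ (Fintype.piFinset fun j : Fin m => J.image fun i => rep (b i j)).card := by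
    refine Finset.card_le_card_of_injOn (fun i j => rep (b i j)) ?_ ?_
    · intro i hi
      simp only [Finset.mem_coe, Fintype.mem_piFinset]
      exact fun j => Finset.mem_image_of_mem _ hi
    · intro i hi i' hi' h
      by_contra hne
      refine hs i i' hne fun j => ⟨{j}, ?_⟩
      rw [Finset.prod_singleton]
      exact square_of_rep (congrFun h j)
  refine h1.trans ?_
  rw [Fintype.card_piFinset]
  refine (Finset.prod_le_pow_card _ _ C fun j _ => ?_).trans (by rw [Finset.card_univ, Fintype.card_fin])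
  refine hC {v | OddAt v (b i0 j)} _ ?_ ?_
  · intro D hD
    obtain ⟨i, hi, rfl⟩ := Finset.mem_image.1 hD
    refine ⟨rep_ne ((hb i).ne j), fun v => ?_⟩
    obtain ⟨s, hs0, h⟩ := rep_spec (b i j)
    rw [h, oddAt_mul_sq hs0]
    exact hodd i hi v j
  · intro D hD D' hD' hne hsq
    obtain ⟨i, hi, rfl⟩ := Finset.mem_image.1 hD
    obtain ⟨i', hi', rfl⟩ := Finset.mem_image.1 hD'
    apply hne
    have := rep_square (rep_ne ((hb i).ne j)) (rep_ne ((hb i').ne j)) hsq
    rwa [rep_rep, rep_rep] at this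

/-- the estimate for one nonempty `S` -/
theorem perS (idl : S_IDL) (cls : S_CLS) {m : ℕ} (S : Finset (Fin m)) (hS : S.Nonempty)
    (f : F → ℝ) (hf0 : ∀ D, D ≠ 0 → 0 ≤ f D) (hf2 : ∀ D s, D ≠ 0 → s ≠ 0 → f (D * s ^ 2) = f D)
    (hW : Wtd f) :
    ∃ C : ℝ, 0 < C ∧ ∀ X : ℝ, 1 ≤ X → ∀ (n : ℕ) (b : Fin n → Fin m → F), (∀ i, Indep (b i)) →
    (∀ i i', i ≠ i' → ¬ SubSp (b i) (b i')) → (∀ i, SupLe (b i) X) →
    ∑ i, f (∏ j ∈ S, b i j) ≤ C * X * (1 + Real.log X) ^ (2 ^ m - 2) := by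
  obtain ⟨c1, c2⟩ := card_odd S hS
  have hm : 1 ≤ m := by
    obtain ⟨a, -⟩ := hS
    have := a.2; omega
  obtain ⟨C1, hC1, hW1⟩ := hW (2 ^ (m - 1)) (Nat.one_le_two_pow)
  obtain ⟨C2, hC2, hI⟩ := idl F
  obtain ⟨C, hC⟩ := cls F
  refine ⟨(C ^ m : ℕ) * C1 * C2 ^ (2 ^ (m - 1) - 1) + 1, by positivity, ?_⟩
  intro X hX n b hb hs hsup
  have hlog : 0 ≤ Real.log X := Real.log_nonneg hX
  have hne : ∀ i, (∏ j ∈ S, b i j) ≠ 0 := fun i => Finset.prod_ne_zero_iff.2 fun j _ => (hb i).ne j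
  -- the finite support
  have hfin : ∀ i, {v : HeightOneSpectrum (𝓞 F) | ∃ j, OddAt v (b i j)}.Finite := by
    intro i
    have : {v : HeightOneSpectrum (𝓞 F) | ∃ j, OddAt v (b i j)} =
        ⋃ j, {v : HeightOneSpectrum (𝓞 F) | OddAt v (b i j)} := by
      ext v; simp
    rw [this]
    exact Set.finite_iUnion fun j => oddAt_finite _ ((hb i).ne j)
  have key := core' (V := HeightOneSpectrum (𝓞 F))
    (fun v => ((Ideal.absNorm v.asIdeal : ℕ) : ℝ)) one_le_N (univ : Finset (Fin n))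
    (fun i v => univ.filter fun j => OddAt v (b i j)) (fun i => (hfin i).toFinset)
    (fun i v => by
      rw [Set.Finite.mem_toFinset, Ne, Finset.filter_eq_empty_iff]
      simp) (fun T => Odd (T ∩ S).card) (by simp) (2 ^ (m - 1)) (2 ^ (m - 1) - 1)
    (by convert c1) (by convert c2)
    (fun i => rep (∏ j ∈ S, b i j)) supp
    (fun i v => by
      rw [mem_supp (rep_ne (hne i))]
      obtain ⟨s, hs0, h⟩ := rep_spec (∏ j ∈ S, b i j)
      rw [h, oddAt_mul_sq hs0, oddAt_prod (b i) (hb i).ne S])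
    (C ^ m) (fun i0 _ => fibre hC b hb hs i0) X hX
    (fun i _ => hsup i _ fun v hv => by
      rw [Set.Finite.mem_toFinset] at hv
      exact hv) f (fun i _ => hf0 _ (rep_ne (hne i))) C1 hC1
    (by
      intro Y hY 𝒟 h1 h2
      have hne' : ∀ D ∈ 𝒟, D ≠ 0 := by
        intro D hD
        obtain ⟨i, -, rfl⟩ := h1 D hD
        exact rep_ne (hne i)
      have h3 := hW1 Y hY 𝒟 ⟨hne', fun D hD => ?_, fun D hD D' hD' hDD hsq => ?_⟩
      · refine le_trans (le_of_eq ?_) h3
        refine Finset.sum_congr rfl fun D hD => ?_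
        rw [wt_eq (hne' D hD)]
      · have := oddNorm_eq (hne' D hD)
        rw [this]
        exact h2 D hD
      · apply hDD
        obtain ⟨i, -, rfl⟩ := h1 D hD
        obtain ⟨i', -, rfl⟩ := h1 D' hD'
        have := rep_square (rep_ne (hne i)) (rep_ne (hne i')) hsq
        rwa [rep_rep, rep_rep] at this)
    C2 (fun 𝒜 h => hI X hX 𝒜 h)
  have h1 : ∑ i, f (∏ j ∈ S, b i j) = ∑ i, f (rep (∏ j ∈ S, b i j)) := by
    refine Finset.sum_congr rfl fun i _ => ?_
    obtain ⟨s, hs0, h⟩ := rep_spec (∏ j ∈ S, b i j)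
    rw [h, hf2 _ _ (hne i) hs0]
  rw [h1]
  refine key.trans ?_
  have h2 : 2 ^ m - 2 = (2 ^ (m - 1) - 1) + (2 ^ (m - 1) - 1) := by
    obtain ⟨k, rfl⟩ : ∃ k, m = k + 1 := ⟨m - 1, by omega⟩
    have : 2 ^ (k + 1) = 2 * 2 ^ k := by ring
    rw [Nat.add_sub_cancel]
    have := Nat.one_le_two_pow (n := k)
    omega
  have h3 : 0 ≤ X * (1 + Real.log X) ^ (2 ^ m - 2) := by positivity
  calc ((C ^ m : ℕ) : ℝ) * C1 * X * (1 + Real.log X) ^ (2 ^ (m - 1) - 1) *
        (C2 * (1 + Real.log X)) ^ (2 ^ (m - 1) - 1)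
      = (((C ^ m : ℕ) : ℝ) * C1 * C2 ^ (2 ^ (m - 1) - 1)) * (X * (1 + Real.log X) ^ (2 ^ m - 2)) := by
        rw [h2, mul_pow, pow_add]; ring
    _ ≤ (((C ^ m : ℕ) : ℝ) * C1 * C2 ^ (2 ^ (m - 1) - 1) + 1) *
          (X * (1 + Real.log X) ^ (2 ^ m - 2)) :=
        mul_le_mul_of_nonneg_right (by linarith) h3
    _ = _ := by ring

end per

/-- FAM. -/
theorem fam : S_IDL → S_CLS → S_FAM := by
  intro idl cls F _ _ m hm f hf0 hf2 hW hW1
  -- a constant for every `S`
  have hS : ∀ S : Finset (Fin m), ∃ C : ℝ, 0 < C ∧ ∀ X : ℝ, 1 ≤ X →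
      ∀ (n : ℕ) (b : Fin n → Fin m → F), (∀ i, Indep (b i)) →
      (∀ i i', i ≠ i' → ¬ SubSp (b i) (b i')) → (∀ i, SupLe (b i) X) →
      ∑ i, f (∏ j ∈ S, b i j) ≤ C * X * (1 + Real.log X) ^ (2 ^ m - 2) := by
    intro S
    rcases S.eq_empty_or_nonempty with rfl | hne
    · obtain ⟨C, hC, h⟩ := perS (F := F) idl cls {(⟨0, hm⟩ : Fin m)} (Finset.singleton_nonempty _)
        (fun _ => (1 : ℝ)) (fun _ _ => zero_le_one) (fun _ _ _ _ => rfl) hW1
      have hf1 : 0 ≤ f 1 := hf0 1 one_ne_zero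
      refine ⟨f 1 * C + 1, by positivity, fun X hX n b hb hs hsup => ?_⟩
      have h1 := h X hX n b hb hs hsup
      rw [Finset.sum_const, Finset.card_univ, Fintype.card_fin, nsmul_eq_mul, mul_one] at h1
      simp only [Finset.prod_empty]
      rw [Finset.sum_const, Finset.card_univ, Fintype.card_fin, nsmul_eq_mul]
      have hlog : 0 ≤ Real.log X := Real.log_nonneg hX
      have h3 : 0 ≤ X * (1 + Real.log X) ^ (2 ^ m - 2) := by positivity
      calc (n : ℝ) * f 1 ≤ (C * X * (1 + Real.log X) ^ (2 ^ m - 2)) * f 1 :=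
            mul_le_mul_of_nonneg_right h1 hf1
        _ = (f 1 * C) * (X * (1 + Real.log X) ^ (2 ^ m - 2)) := by ring
        _ ≤ (f 1 * C + 1) * (X * (1 + Real.log X) ^ (2 ^ m - 2)) :=
            mul_le_mul_of_nonneg_right (by linarith) h3
        _ = _ := by ring
    · exact perS idl cls S hne f hf0 hf2 hW
  choose C hC h using hS
  refine ⟨∑ S, C S, Finset.sum_pos (fun S _ => hC S) Finset.univ_nonempty,
    fun X hX n b hb hs hsup => ?_⟩
  rw [Finset.sum_comm, Finset.sum_mul, Finset.sum_mul]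
  exact Finset.sum_le_sum fun S _ => h S X hX n b hb hs hsup

end Pool.Agent.Q210.ESB
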